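import Pool.Agent.X157.D.Final
import Pool.Agent.TH3.IR.Proj
import Pool.Agent.TH603.Sur.Uni

set_option autoImplicit false

/-!
# The Hilbert function of 11 and of 15 general fat points of the plane: one degree, error one

Let `r = 11` or `r = 15` and `m ≥ 1`. There is a degree `d₀` such that for `r` general points of the
projective plane `H_{2,r,m}(d) = min (binom (d + 2) 2) (r * binom (m + 1) 2)` for every `d ≠ d₀`, and
`H_{2,r,m}(d₀)` is this number, or `binom (d₀ + 2) 2 - 1` instead of `binom (d₀ + 2) 2`: there is ONE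
form of degree `d₀` with multiplicity `m` at the points instead of none. The second case is only
possible if `3 ∣ d₀`, `√r m ≤ d₀` and `2 d₀ + 3 < √r (2 m + 1)`.
-/

namespace Pool.Agent.Results.MP_b56c98_ag.ElevenFifteenPoints

open MvPolynomial
open scoped LinearAlgebra.Projectivization
open Pool.Agent.H350R3.MG Pool.Agent.TH3.IR

/-- The `m`-th symbolic power of the ideal of the points `P₁, …, P_r`. -/
noncomputable def symbolicPower {n r : ℕ} (m : ℕ) (P : Fin r → ℙ ℂ (Fin (n + 1) → ℂ)) :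
    Ideal (MvPolynomial (Fin (n + 1)) ℂ) :=
  ⨅ i, primeIdeal (P i) ^ m

/-- The Hilbert function `dim R_d - dim J_d` of `R / J`. -/
noncomputable def hilbert {n : ℕ} (J : Ideal (MvPolynomial (Fin (n + 1)) ℂ)) (d : ℕ) : ℤ :=
  (Module.finrank ℂ (homogeneousSubmodule (Fin (n + 1)) ℂ d) : ℤ) -
    Module.finrank ℂ (homogeneousSubmodule (Fin (n + 1)) ℂ d ⊓ Submodule.restrictScalars ℂ J :
      Submodule ℂ (MvPolynomial (Fin (n + 1)) ℂ))

/-- The cyclic change of the coordinates. -/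
noncomputable def rot : MvPolynomial (Fin 3) ℂ ≃ₐ[ℂ] MvPolynomial (Fin 3) ℂ :=
  renameEquiv ℂ (finRotate 3)

theorem rot_X (i : Fin 3) : rot (X i) = X (finRotate 3 i) := by
  simp [rot]

theorem rot_C (c : ℂ) : rot (C c) = C c := by
  simp [rot]

theorem map_span_rot (p : Fin 2 → ℂ) :
    Ideal.map (rot : MvPolynomial (Fin 3) ℂ →+* MvPolynomial (Fin 3) ℂ)
      (Ideal.span ({X 0 - C (p 0) * X 2, X 1 - C (p 1) * X 2} : Set (MvPolynomial (Fin 3) ℂ))) =
    Ideal.span (Set.range fun j : Fin 2 =>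
        (X j.succ - C (p j) * X 0 : MvPolynomial (Fin 3) ℂ)) := by
  rw [Ideal.map_span]
  congr 1
  have e0 : finRotate 3 0 = 1 := by decide
  have e1 : finRotate 3 1 = 2 := by decide
  have e2 : finRotate 3 2 = 0 := by decide
  ext f
  constructor
  · rintro ⟨g, hg, rfl⟩
    rcases hg with rfl | hg
    · refine ⟨0, ?_⟩
      simp only [RingHom.coe_coe, map_sub, map_mul, rot_X, rot_C, e0, e2]
      rfl
    · rw [Set.mem_singleton_iff] at hg
      subst hg
      refine ⟨1, ?_⟩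
      simp only [RingHom.coe_coe, map_sub, map_mul, rot_X, rot_C, e1, e2]
      rfl
  · rintro ⟨j, rfl⟩
    fin_cases j
    · refine ⟨X 0 - C (p 0) * X 2, Or.inl rfl, ?_⟩
      simp only [RingHom.coe_coe, map_sub, map_mul, rot_X, rot_C, e0, e2]
      rfl
    · refine ⟨X 1 - C (p 1) * X 2, Or.inr rfl, ?_⟩
      simp only [RingHom.coe_coe, map_sub, map_mul, rot_X, rot_C, e1, e2]
      rfl


theorem cons_ne (p : Fin 2 → ℂ) : (Fin.cons 1 p : Fin (2 + 1) → ℂ) ≠ 0 := by
  intro h0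
  have := congrFun h0 0
  simp at this

theorem finrank_eq {r m d : ℕ} (P : Fin r → Fin 2 → ℂ) (hv : ∀ i, (Fin.cons 1 (P i) : Fin (2 + 1) → ℂ) ≠ 0) :
    Module.finrank ℂ (homogeneousSubmodule (Fin (2 + 1)) ℂ d ⊓ Submodule.restrictScalars ℂ
      (symbolicPower m fun i => Projectivization.mk ℂ (Fin.cons 1 (P i) : Fin (2 + 1) → ℂ) (hv i)) :
      Submodule ℂ (MvPolynomial (Fin (2 + 1)) ℂ)) =
    Module.finrank ℂ
      ↥(homogeneousSubmodule (Fin 3) ℂ d ⊓
        Submodule.restrictScalars ℂ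
          (⨅ i : Fin r, (Ideal.span ({X 0 - C (P i 0) * X 2, X 1 - C (P i 1) * X 2} :
            Set (MvPolynomial (Fin 3) ℂ))) ^ m)) := by
  set V := homogeneousSubmodule (Fin 3) ℂ d ⊓
        Submodule.restrictScalars ℂ
          (⨅ i : Fin r, (Ideal.span ({X 0 - C (P i 0) * X 2, X 1 - C (P i 1) * X 2} :
            Set (MvPolynomial (Fin 3) ℂ))) ^ m) with hV
  have hinj : Function.Injective (finRotate 3) := (finRotate 3).injective
  have key : ∀ G : MvPolynomial (Fin 3) ℂ, rot G ∈ (homogeneousSubmodule (Fin (2 + 1)) ℂ d ⊓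
      Submodule.restrictScalars ℂ
      (symbolicPower m fun i => Projectivization.mk ℂ (Fin.cons 1 (P i) : Fin (2 + 1) → ℂ) (hv i)) :
      Submodule ℂ (MvPolynomial (Fin (2 + 1)) ℂ)) ↔ G ∈ V := by
    intro G
    rw [hV, Submodule.mem_inf, Submodule.mem_inf, Submodule.restrictScalars_mem,
      Submodule.restrictScalars_mem, mem_homogeneousSubmodule, mem_homogeneousSubmodule]
    refine and_congr ?_ ?_
    · exact IsHomogeneous.rename_isHomogeneous_iff hinj
    · unfold symbolicPower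
      rw [Ideal.mem_iInf, Ideal.mem_iInf]
      refine forall_congr' fun i => ?_
      rw [primeIdeal_cons, ← map_span_rot, ← Ideal.map_pow]
      have h1 := Ideal.comap_map_of_bijective
        (rot : MvPolynomial (Fin 3) ℂ →+* MvPolynomial (Fin 3) ℂ) rot.bijective
        (I := (Ideal.span ({X 0 - C (P i 0) * X 2, X 1 - C (P i 1) * X 2} :
            Set (MvPolynomial (Fin 3) ℂ))) ^ m)
      conv_rhs => rw [← h1]
      rfl
  have hmap : V.map (rot.toLinearEquiv : MvPolynomial (Fin 3) ℂ →ₗ[ℂ] MvPolynomial (Fin 3) ℂ) =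
      (homogeneousSubmodule (Fin (2 + 1)) ℂ d ⊓
      Submodule.restrictScalars ℂ
      (symbolicPower m fun i => Projectivization.mk ℂ (Fin.cons 1 (P i) : Fin (2 + 1) → ℂ) (hv i)) :
      Submodule ℂ (MvPolynomial (Fin (2 + 1)) ℂ)) := by
    ext G
    rw [Submodule.mem_map]
    constructor
    · rintro ⟨H, hH, rfl⟩
      exact (key H).2 hH
    · intro hG
      refine ⟨rot.symm G, (key _).1 ?_, ?_⟩
      · rw [AlgEquiv.apply_symm_apply]
        exact hG
      · exact rot.apply_symm_apply G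
  rw [← hmap]
  exact LinearEquiv.finrank_map_eq rot.toLinearEquiv V

/-- The expected value `min (binom (2 + d) 2) (r * binom (2 + m - 1) 2)`. -/
def value (r m d : ℕ) : ℤ := ((min ((2 + d).choose 2) (r * (2 + m - 1).choose 2) : ℕ) : ℤ)

theorem hilb {r m d : ℕ} (P : Fin r → Fin 2 → ℂ)
    (hv : ∀ i, (Fin.cons 1 (P i) : Fin (2 + 1) → ℂ) ≠ 0) :
    hilbert (symbolicPower m fun i => Projectivization.mk ℂ (Fin.cons 1 (P i) : Fin (2 + 1) → ℂ)
      (hv i)) d = ((d + 2).choose 2 : ℤ) -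
        Module.finrank ℂ ↥(Pool.Agent.TH167.SHDefs.sys P d (fun _ => m)) := by
  unfold hilbert
  rw [finrank_eq P hv]
  have h3 : Module.finrank ℂ (homogeneousSubmodule (Fin (2 + 1)) ℂ d) = (d + 2).choose 2 :=
    TH603.Sur.finrank_forms (K := ℂ) d
  rw [h3]
  rfl

theorem hilb_exp {r m d : ℕ} (P : Fin r → Fin 2 → ℂ)
    (hv : ∀ i, (Fin.cons 1 (P i) : Fin (2 + 1) → ℂ) ≠ 0)
    (h : H932R3.ExpDim ℂ (fun _ => m) P d) :
    hilbert (symbolicPower m fun i => Projectivization.mk ℂ (Fin.cons 1 (P i) : Fin (2 + 1) → ℂ)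
      (hv i)) d = value r m d := by
  rw [hilb]
  have h2 : Module.finrank ℂ ↥(Pool.Agent.TH167.SHDefs.sys P d (fun _ => m)) =
      (d + 2).choose 2 - ∑ _i : Fin r, (m + 1).choose 2 := h
  rw [Finset.sum_const, Finset.card_univ, Fintype.card_fin, smul_eq_mul] at h2
  unfold value
  rw [h2, show 2 + d = d + 2 by omega, show 2 + m - 1 = m + 1 by omega]
  rcases le_total ((d + 2).choose 2) (r * (m + 1).choose 2) with h4 | h4
  · rw [min_eq_left h4, Nat.sub_eq_zero_of_le h4]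
    simp
  · rw [min_eq_right h4, Nat.cast_sub h4]
    ring

theorem result (r m : ℕ) (hr : r = 11 ∨ r = 15) (hm : 1 ≤ m) : ∃ d₀ : ℕ,
    Generally (fun P : Fin r → ℙ ℂ (Fin (2 + 1) → ℂ) =>
      (∀ d : ℕ, d ≠ d₀ → hilbert (symbolicPower m P) d = value r m d) ∧
      (hilbert (symbolicPower m P) d₀ = value r m d₀ ∨
        (3 ∣ d₀ ∧ √(r : ℝ) * m ≤ d₀ ∧ 2 * (d₀ : ℝ) + 3 < √(r : ℝ) * (2 * m + 1) ∧
          (d₀ + 2).choose 2 ≤ r * (m + 1).choose 2 ∧
          hilbert (symbolicPower m P) d₀ = ((d₀ + 2).choose 2 : ℤ) - 1))) := by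
  obtain ⟨F, hF, hF'⟩ := Pool.Agent.X157.D.main hr hm
  refine ⟨TH641.NW.dcrit r m, generally_of_affine (F.map (algebraMap ℚ ℂ))
    (H932R3.map_ne_zero_of hF) fun P hv hP => ?_⟩
  rw [MvPolynomial.eval_map] at hP
  obtain ⟨h1, h2⟩ := hF' P hP
  refine ⟨fun d hd => hilb_exp P hv (h1 d hd), ?_⟩
  rcases h2 (TH641.NW.dcrit r m) with h3 | ⟨h3, h4, h5, h6, h7⟩
  · exact Or.inl (hilb_exp P hv h3)
  · refine Or.inr ⟨h3, h4, h5, h6, ?_⟩
    rw [hilb, h7]
    norm_num

end Pool.Agent.Results.MP_b56c98_ag.ElevenFifteenPoints
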