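import Pool.Agent.Results.MP_d03834_ag.SparseMultiplicities
import Pool.Agent.Results.MP_b56c98_ag.PlaneAllDegrees

set_option autoImplicit false

/-!
# Hilbert functions of `r` general fat points of the plane, all degrees: squares, primes, sparse sequences of `m`

Let `r ≥ 10`. Call `m ≥ 1` good if `H_{2,r,m}(d) = min (binom (d + 2) 2) (r * binom (m + 1) 2)` for ALL `d` (for all
`r`-tuples of points in one nonempty Zariski-open subset). For `r ≥ 37`, `r = 13`, `r = 21`, squares all `m` are good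
by the starting result `PlaneAllDegrees`, for the other `r` that result leaves one degree `d₀` open for each `m` with
`2 d₀ + 3` in a window. Here: the `m` which are not good have upper density at most `bad r < 1`
(`bad 10 < 0.163`, `bad 11 < 0.053`, `bad 15 < 0.146`) along all sequences of `m` for which `√r m / 3` is
equidistributed, among the values of every nonconstant integral polynomial (all `m`, squares, ...), among the
primes, and along `⌊α j ^ c⌋`, `c > 1`, for all `α > 0` outside one set of dimension less than `1`.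
-/

namespace Pool.Agent.Results.MP_b56c98_ag.SparseMultiplicities

open MvPolynomial Pool.Agent.X134.UD
open Pool.Agent.H534R3.UDist (Weyl)
open MP_d03834_ag.SparseMultiplicities (bad bad_lt bad_ten bad_eleven bad_fifteen)
open PlaneAllDegrees

/-- `H_{2,r,m}(d)` is the expected value for all `d` -/
def Good (r m : ℕ) : Prop := PlaneFormula r m fun _ => True

/-- `m` is positive and not good -/
def Bad (r m : ℕ) : Prop := 1 ≤ m ∧ ¬ Good r m

theorem aeval_value {K : Type} [Field K] [CharZero K] {n : ℕ} (Φ : MvPolynomial (Fin n × Fin 2) ℤ)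
    (Q : Fin n → Fin 2 → K) :
    MvPolynomial.aeval (fun ij : Fin n × Fin 2 => Q ij.1 ij.2) (Φ.map (Int.castRingHom ℚ)) =
      MP_d03834_ag.EffectiveEveryField.value Φ Q := by
  unfold MP_d03834_ag.EffectiveEveryField.value
  rw [MvPolynomial.aeval_def, MvPolynomial.eval₂_map, MvPolynomial.eval_map]
  congr 1
  exact RingHom.ext_int _ _

theorem good_of {r m : ℕ} (h : MP_d03834_ag.SparseMultiplicities.Good r m) : Good r m := by
  obtain ⟨Φ, hΦ, -, -, H, -⟩ := h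
  have hF : Φ.map (Int.castRingHom ℚ) ≠ 0 := fun h0 =>
    hΦ (MvPolynomial.map_injective (Int.castRingHom ℚ) Int.cast_injective (by rw [h0, map_zero]))
  refine formula_of ⟨Φ.map (Int.castRingHom ℚ), hF, fun Q hQ d _ => ?_⟩
  rw [aeval_value] at hQ
  have h1 := H ℂ Q hQ d
  unfold MP_d03834_ag.EffectiveEveryField.Expected at h1
  unfold Pool.Agent.H932R3.ExpDim
  rw [Finset.sum_const, Finset.card_univ, Fintype.card_fin, smul_eq_mul]
  exact h1

theorem bad_of {r m : ℕ} (h : Bad r m) : MP_d03834_ag.SparseMultiplicities.Bad r m :=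
  ⟨h.1, fun h1 => h.2 (good_of h1)⟩

theorem upperLE_mono {P Q : ℕ → Prop} {β : ℝ} (h : ∀ j, P j → Q j) (hQ : UpperLE Q β) : UpperLE P β := by
  intro δ hδ
  obtain ⟨N₀, H⟩ := hQ δ hδ
  refine ⟨N₀, fun N hN => le_trans ?_ (H N hN)⟩
  have h1 : {j : ℕ | j < N ∧ P j} ⊆ {j : ℕ | j < N ∧ Q j} := fun j hj => ⟨hj.1, h j hj.2⟩
  have h2 : {j : ℕ | j < N ∧ Q j}.Finite := (Set.finite_lt_nat N).subset fun j hj => hj.1
  exact_mod_cast Set.ncard_le_ncard h1 h2

theorem upperLEPrimes_mono {P Q : ℕ → Prop} {β : ℝ} (h : ∀ j, P j → Q j) (hQ : UpperLEPrimes Q β) :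
    UpperLEPrimes P β := by
  intro δ hδ
  obtain ⟨N₀, H⟩ := hQ δ hδ
  refine ⟨N₀, fun N hN => le_trans ?_ (H N hN)⟩
  have h1 : {j : ℕ | j ≤ N ∧ j.Prime ∧ P j} ⊆ {j : ℕ | j ≤ N ∧ j.Prime ∧ Q j} :=
    fun j hj => ⟨hj.1, hj.2.1, h j hj.2.2⟩
  have h2 : {j : ℕ | j ≤ N ∧ j.Prime ∧ Q j}.Finite := (Set.finite_le_nat N).subset fun j hj => hj.1
  exact_mod_cast Set.ncard_le_ncard h1 h2

theorem result :
    (∀ r : ℕ, 10 ≤ r →
      (∀ x : ℕ → ℕ, Weyl (fun j => Real.sqrt r / 3 * x j) → UpperLE (fun j => Bad r (x j)) (bad r)) ∧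
      (∀ P : Polynomial ℤ, 1 ≤ P.natDegree →
        UpperLE (fun j => ∃ m : ℕ, (m : ℤ) = P.eval (j : ℤ) ∧ Bad r m) (bad r)) ∧
      UpperLEPrimes (Bad r) (bad r)) ∧
    (∀ c : ℝ, 1 < c → ∃ κ : ℝ, 0 < κ ∧ κ < 1 ∧ ∃ E : Set ℝ, dimH E ≤ ENNReal.ofReal (1 - κ) ∧
      ∀ α : ℝ, 0 < α → α ∉ E → ∀ r : ℕ, 10 ≤ r →
        UpperLE (fun j => Bad r ⌊α * (j : ℝ) ^ c⌋₊) (bad r)) ∧
    (∀ r : ℕ, 10 ≤ r → bad r < 1) ∧ bad 10 < 0.163 ∧ bad 11 < 0.053 ∧ bad 15 < 0.146 := by
  obtain ⟨h1, h2, h3⟩ := MP_d03834_ag.SparseMultiplicities.result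
  refine ⟨fun n hn => ?_, fun c hc => ?_, h3⟩
  · obtain ⟨a1, a2, a3⟩ := h1 n hn
    refine ⟨fun x hx => upperLE_mono (fun j hj => bad_of hj) (a1 x hx),
      fun P hP => upperLE_mono (fun j hj => ?_) (a2 P hP), upperLEPrimes_mono (fun j hj => bad_of hj) a3⟩
    obtain ⟨m, hm, hm2⟩ := hj
    exact ⟨m, hm, bad_of hm2⟩
  · obtain ⟨κ, hκ0, hκ1, E, hE, H⟩ := h2 c hc
    exact ⟨κ, hκ0, hκ1, E, hE, fun α hα hαE n hn =>
      upperLE_mono (fun j hj => bad_of hj) (H α hα hαE n hn)⟩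

end Pool.Agent.Results.MP_b56c98_ag.SparseMultiplicities
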